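import Pool.Agent.H902R2.HO.Stubs

/-!
ROOM HO, task FR (helper503): small facts on frames.
-/

namespace H503HO

open H902HO

theorem dot_comm (a b : T ℝ) : T.dot a b = T.dot b a := by
  unfold T.dot; ring

theorem dot_cr_left (a b : T ℝ) : T.dot a (T.cr a b) = 0 := by
  unfold T.dot T.cr; ring

theorem dot_cr_right (a b : T ℝ) : T.dot b (T.cr a b) = 0 := by
  unfold T.dot T.cr; ring

theorem dot_cr_cr (a b : T ℝ) :
    T.dot (T.cr a b) (T.cr a b) = T.dot a a * T.dot b b - T.dot a b ^ 2 := by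
  unfold T.dot T.cr; ring

theorem W0_ap (μ : ℝ) (a b : T ℝ) :
    T.dot a ((W0 μ).ap b) = T.dot a b + μ * T.dot a (B0.ap b) := by
  unfold T.dot Sym.ap W0 B0; ring

theorem FR1 : St_FR1 := by
  intro μ x1 x2 x3 h
  have h13 : T.dot x1 x3 = 0 := by rw [← h.cr]; exact dot_cr_left _ _
  have h23 : T.dot x2 x3 = 0 := by rw [← h.cr]; exact dot_cr_right _ _
  have h33 : T.dot x3 x3 = 1 := by
    rw [← h.cr, dot_cr_cr, h.d11, h.d22, h.d12]; norm_num
  unfold frS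
  simp only [W0_ap, h.d11, h.d22, h.d12, h13, h23, h33, zero_add]

/-- the quadratic form `hX` is homogeneous -/
theorem hX_scale (μ : ℝ) (b q : Sym ℝ) :
    hX ⟨1 + μ * b.xx, μ * b.xy, μ * b.xz, 1 + μ * b.yy, μ * b.yz, 1 + μ * b.zz⟩ q =
      μ ^ 2 * hX b q := by
  unfold hX; ring

/-- `hX` in terms of the vectors `P = b.yz x₁ - b.xz x₂` and `P' = q.yz x₁ - q.xz x₂` -/
theorem hX_frame (B Q : Sym ℝ) (x1 x2 x3 : T ℝ) (h : IsFrame x1 x2 x3) :
    hX (frS B x1 x2 x3) (frS Q x1 x2 x3) =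
      T.dot x3 (B.ap x3) * T.dot (T.cr (B.ap x3) x3) (T.cr (Q.ap x3) x3) -
      T.dot x3 (Q.ap x3) * T.dot (T.cr (B.ap x3) x3) (T.cr (B.ap x3) x3) +
      T.dot (T.cr (B.ap x3) x3) (Q.ap (T.cr (B.ap x3) x3)) -
      T.dot (T.cr (Q.ap x3) x3) (B.ap (T.cr (B.ap x3) x3)) := by
  obtain ⟨h11, h22, h12, hcr⟩ := h
  -- the two vectors
  have key : ∀ u : T ℝ, T.cr u x3 = ⟨T.dot x2 u * x1.x - T.dot x1 u * x2.x,
      T.dot x2 u * x1.y - T.dot x1 u * x2.y, T.dot x2 u * x1.z - T.dot x1 u * x2.z⟩ := by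
    intro u
    rw [← hcr]
    ext <;> simp only [T.cr, T.dot] <;> ring
  have hdd : ∀ u u' : T ℝ, T.dot (T.cr u x3) (T.cr u' x3) =
      T.dot x2 u * T.dot x2 u' + T.dot x1 u * T.dot x1 u' := by
    intro u u'
    rw [key u, key u']
    have e : T.dot (⟨T.dot x2 u * x1.x - T.dot x1 u * x2.x,
        T.dot x2 u * x1.y - T.dot x1 u * x2.y, T.dot x2 u * x1.z - T.dot x1 u * x2.z⟩ : T ℝ)
        ⟨T.dot x2 u' * x1.x - T.dot x1 u' * x2.x,
        T.dot x2 u' * x1.y - T.dot x1 u' * x2.y, T.dot x2 u' * x1.z - T.dot x1 u' * x2.z⟩ =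
        T.dot x2 u * T.dot x2 u' * T.dot x1 x1 + T.dot x1 u * T.dot x1 u' * T.dot x2 x2 -
          (T.dot x2 u * T.dot x1 u' + T.dot x1 u * T.dot x2 u') * T.dot x1 x2 := by
      generalize T.dot x2 u = p
      generalize T.dot x1 u = p'
      generalize T.dot x2 u' = r
      generalize T.dot x1 u' = r'
      unfold T.dot; ring
    rw [e, h11, h22, h12]; ring
  have hqf : ∀ (M : Sym ℝ) (u u' : T ℝ), T.dot (T.cr u x3) (M.ap (T.cr u' x3)) =
      T.dot x2 u * T.dot x2 u' * T.dot x1 (M.ap x1) + T.dot x1 u * T.dot x1 u' * T.dot x2 (M.ap x2) -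
        (T.dot x2 u * T.dot x1 u' + T.dot x1 u * T.dot x2 u') * T.dot x1 (M.ap x2) := by
    intro M u u'
    rw [key u, key u']
    generalize T.dot x2 u = p
    generalize T.dot x1 u = p'
    generalize T.dot x2 u' = r
    generalize T.dot x1 u' = r'
    unfold T.dot Sym.ap; ring
  rw [hdd, hdd, hqf, hqf]
  unfold hX frS
  ring

theorem FR2 : St_FR2 := by
  intro μ x1 x2 x3 h
  rw [FR1 μ x1 x2 x3 h, hX_scale, hX_frame B0 Q0 x1 x2 x3 h]
  have h33 : T.dot x3 x3 = 1 := by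
    rw [← h.cr, dot_cr_cr, h.d11, h.d22, h.d12]; norm_num
  congr 1
  unfold T.dot at h33
  have hy : x3.y ^ 2 = 1 - x3.x ^ 2 - x3.z ^ 2 := by linear_combination h33
  unfold T.dot T.cr Sym.ap B0 Q0
  simp only
  have e4 : x3.y * x3.y = 1 - x3.x ^ 2 - x3.z ^ 2 := by rw [← hy]; ring
  linear_combination (4 * x3.x ^ 2 * x3.z ^ 2 - (3 * x3.x ^ 2 - x3.z ^ 2) * (x3.x ^ 2 + x3.z ^ 2)) * hy

theorem FR3 : St_FR3 := by
  intro n hn
  unfold T.dot at hn
  set u := n.x + n.y with hu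
  set v := n.y - n.x with hv
  set A := 3 * n.x ^ 4 + n.z ^ 4 with hA
  set g := 3 * n.x ^ 2 - n.z ^ 2 with hg
  have hA0 : 0 ≤ A := by positivity
  have hgA : g ^ 2 ≤ 4 * A := by
    rw [hg, hA]
    nlinarith [sq_nonneg (n.x ^ 2 + n.z ^ 2)]
  have hv2 : v ^ 2 ≤ 2 := by
    rw [hv]
    nlinarith [sq_nonneg (n.y + n.x), sq_nonneg n.z]
  have h1 : g ^ 2 * v ^ 2 ≤ 8 * A := by
    calc g ^ 2 * v ^ 2 ≤ (4 * A) * 2 := mul_le_mul hgA hv2 (sq_nonneg _) (by positivity)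
      _ = 8 * A := by ring
  have h2 : -(16 * u ^ 2 + g ^ 2 * v ^ 2 / 16) ≤ 2 * g * u * v := by
    nlinarith [sq_nonneg (4 * u + g * v / 4)]
  have h3 : 0 < u ^ 2 / 2 + A / 64 := by
    rcases hA0.lt_or_eq with h | h
    · positivity
    · have hx4 : 0 ≤ n.x ^ 4 := by positivity
      have hz4 : 0 ≤ n.z ^ 4 := by positivity
      have hx : n.x ^ 4 = 0 := by nlinarith
      have hz : n.z ^ 4 = 0 := by nlinarith
      have hx0 : n.x = 0 := by simpa using hx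
      have hz0 : n.z = 0 := by simpa using hz
      have hu2 : u ^ 2 = 1 := by
        rw [hu, hx0]
        rw [hx0, hz0] at hn
        nlinarith
      rw [hu2]
      positivity
  have e : (n.x + n.y) ^ 2 + 4 * (1 / 128) * (3 * n.x ^ 4 + n.z ^ 4 +
      2 * (3 * n.x ^ 2 - n.z ^ 2) * (n.x + n.y) * (n.y - n.x)) =
      u ^ 2 + 1 / 32 * (A + 2 * g * u * v) := by
    rw [hu, hv, hA, hg]; ring
  show 0 < (n.x + n.y) ^ 2 + 4 * (1 / 128) * (3 * n.x ^ 4 + n.z ^ 4 +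
      2 * (3 * n.x ^ 2 - n.z ^ 2) * (n.x + n.y) * (n.y - n.x))
  rw [e]
  nlinarith

end H503HO
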